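import Pool.Agent.K3h35.GS.Stm

/-!
Brick K2 of the project of helper35 on gravitating Abelian Higgs strings.
-/

set_option autoImplicit false

namespace Pool.Agent.K3h66.GAH

open Pool.Agent.K3h35.GS Filter Topology Set

lemma kk_deriv (a v : ℝ) : HasDerivAt (kk a 1) (kd a 1 v) v := by
  have h1 : HasDerivAt (fun v : ℝ => a * (v - 1 * Real.exp v)) (a * (1 - 1 * Real.exp v)) v :=
    ((hasDerivAt_id v).sub ((Real.hasDerivAt_exp v).const_mul 1)).const_mul a
  have h2 := h1.exp
  have h3 : HasDerivAt (fun v : ℝ => 1 * Real.exp v - 1) (1 * Real.exp v) v :=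
    ((Real.hasDerivAt_exp v).const_mul 1).sub_const 1
  have h4 := h2.mul h3
  have h5 : kd a 1 v = Real.exp (a * (v - 1 * Real.exp v)) * (a * (1 - 1 * Real.exp v)) *
      (1 * Real.exp v - 1) + Real.exp (a * (v - 1 * Real.exp v)) * (1 * Real.exp v) := by
    unfold kd
    ring
  rw [h5]
  exact h4

lemma mono_of (f f' : ℝ → ℝ) (h : ∀ s, HasDerivAt f (f' s) s) (x y : ℝ) (hxy : x ≤ y)
    (h0 : ∀ s, x ≤ s → s ≤ y → 0 ≤ f' s) : f x ≤ f y := by
  have h1 : MonotoneOn f (Icc x y) := by
    apply monotoneOn_of_deriv_nonneg (convex_Icc x y)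
    · exact fun s _ => (h s).continuousAt.continuousWithinAt
    · exact fun s _ => (h s).differentiableAt.differentiableWithinAt
    · intro s hs
      rw [interior_Icc] at hs
      rw [(h s).deriv]
      exact h0 s hs.1.le hs.2.le
  exact h1 (left_mem_Icc.2 hxy) (right_mem_Icc.2 hxy) hxy

lemma kk_neg (a v : ℝ) (hv : v < 0) : kk a 1 v < 0 := by
  unfold kk
  have h1 : Real.exp v < 1 := by
    rw [Real.exp_lt_one_iff]; exact hv
  have h2 := Real.exp_pos (a * (v - 1 * Real.exp v))
  nlinarith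

lemma kk_low (a v : ℝ) (ha : 0 < a) (hv : v < 0) : -kk a 1 v ≤ Real.exp v ^ a := by
  unfold kk
  have h1 : Real.exp v < 1 := by
    rw [Real.exp_lt_one_iff]; exact hv
  have h0 := Real.exp_pos v
  have h2 := Real.exp_pos (a * (v - 1 * Real.exp v))
  have h3 : Real.exp (a * (v - 1 * Real.exp v)) ≤ Real.exp v ^ a := by
    rw [← Real.exp_mul]
    apply Real.exp_le_exp.2
    nlinarith
  nlinarith

theorem t_K2 : St_K2 := by
  intro a Q w ha haQ hw
  obtain ⟨hsm, heq, hneg, C, hC, hdec⟩ := hw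
  obtain ⟨hd0, hsm1⟩ := contDiff_infty_iff_deriv.1 hsm
  obtain ⟨hd1, hsm2⟩ := contDiff_infty_iff_deriv.1 hsm1
  set w1 : ℝ → ℝ := deriv w with hw1
  set w2 : ℝ → ℝ := deriv w1 with hw2
  have hw' : ∀ s, HasDerivAt w (w1 s) s := fun s => (hd0 s).hasDerivAt
  have hw1' : ∀ s, HasDerivAt w1 (w2 s) s := fun s => (hd1 s).hasDerivAt
  set X : ℝ → ℝ := fun s => -2 * (s * w1 s) with hX
  have hX' : ∀ s, HasDerivAt X (-kk a 1 (w s) / 2) s := by
    intro s
    have h1 := (((hasDerivAt_id s).mul (hw1' s)).const_mul (-2))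
    have h2 := heq s
    have h3 : -kk a 1 (w s) / 2 = -2 * (1 * w1 s + id s * w2 s) := by
      simp only [id]
      linarith
    rw [h3]
    exact h1
  have hXmono : ∀ x y, 0 ≤ x → x ≤ y → X x ≤ X y := by
    intro x y hx hxy
    refine mono_of X _ hX' x y hxy fun s hs _ => ?_
    have := kk_neg a (w s) (hneg s (hx.trans hs))
    linarith
  -- the constants
  have hcont : Continuous fun s => -kk a 1 (w s) := by
    have h1 : Continuous (kk a 1) :=
      continuous_iff_continuousAt.2 fun v => (kk_deriv a v).continuousAt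
    exact (h1.comp hd0.continuous).neg
  have hbex : ∀ S : ℝ, 0 ≤ S → ∃ b : ℝ, 0 < b ∧ ∀ s, 0 ≤ s → s ≤ S → b ≤ -kk a 1 (w s) := by
    intro S hS
    obtain ⟨s0, hs0, hmin⟩ := isCompact_Icc.exists_isMinOn (nonempty_Icc.2 hS) hcont.continuousOn
    refine ⟨-kk a 1 (w s0), ?_, fun s h1 h2 => hmin ⟨h1, h2⟩⟩
    have := kk_neg a (w s0) (hneg s0 hs0.1)
    linarith
  have hBex : ∀ S : ℝ, 0 ≤ S → ∃ B : ℝ, ∀ s, 0 ≤ s → s ≤ S → -kk a 1 (w s) ≤ B := by
    intro S hS
    obtain ⟨s0, hs0, hmax⟩ := isCompact_Icc.exists_isMaxOn (nonempty_Icc.2 hS) hcont.continuousOn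
    exact ⟨-kk a 1 (w s0), fun s h1 h2 => hmax ⟨h1, h2⟩⟩
  have hXlow : ∀ S b : ℝ, (∀ s, 0 ≤ s → s ≤ S → b ≤ -kk a 1 (w s)) → ∀ s, 0 ≤ s → s ≤ S →
      b / 2 * s ≤ X s := by
    intro S b hb s h0 h1
    have h2 := mono_of (fun s => X s - b / 2 * s) (fun s => -kk a 1 (w s) / 2 - b / 2 * 1)
      (fun s => (hX' s).sub ((hasDerivAt_id s).const_mul (b / 2))) 0 s h0
      (fun r hr0 hr1 => by
        have := hb r hr0 (hr1.trans h1)
        linarith)
    have h3 : X 0 = 0 := by simp [hX]
    simp only [h3] at h2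
    linarith
  have hX1 : 0 < X 1 := by
    obtain ⟨b, hb, hb1⟩ := hbex 1 zero_le_one
    have := hXlow 1 b hb1 1 zero_le_one le_rfl
    linarith
  -- decay of Y
  have hYlim : Tendsto (fun s : ℝ => C ^ a * (1 + s) ^ (-(a * Q - 1))) atTop (𝓝 0) := by
    have h1 : Tendsto (fun s : ℝ => (1 + s) ^ (-(a * Q - 1))) atTop (𝓝 0) :=
      (tendsto_rpow_neg_atTop (by linarith)).comp (tendsto_atTop_add_const_left _ 1 tendsto_id)
    simpa using h1.const_mul (C ^ a)
  have hYle : ∀ s, 0 ≤ s → s * (-kk a 1 (w s)) ≤ C ^ a * (1 + s) ^ (-(a * Q - 1)) := by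
    intro s hs
    have h1 : -kk a 1 (w s) ≤ (C * (1 + s) ^ (-Q)) ^ a :=
      (kk_low a (w s) ha (hneg s hs)).trans
        (Real.rpow_le_rpow (Real.exp_pos _).le (hdec s hs) ha.le)
    have h2 : (0 : ℝ) < 1 + s := by linarith
    have h3 : (C * (1 + s) ^ (-Q)) ^ a = C ^ a * (1 + s) ^ (-(a * Q)) := by
      rw [Real.mul_rpow hC.le (Real.rpow_nonneg h2.le _), ← Real.rpow_mul h2.le]
      congr 2
      ring
    have h4 : (1 + s) ^ (-(a * Q - 1)) = (1 + s) * (1 + s) ^ (-(a * Q)) := by
      rw [← Real.rpow_one_add' h2.le (by linarith)]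
      congr 1
      ring
    rw [h4]
    rw [h3] at h1
    have h5 : 0 < C ^ a * (1 + s) ^ (-(a * Q)) :=
      mul_pos (Real.rpow_pos_of_pos hC _) (Real.rpow_pos_of_pos h2 _)
    nlinarith
  obtain ⟨S0, hS0⟩ : ∃ S0 : ℝ, ∀ s, S0 ≤ s → 16 * (C ^ a * (1 + s) ^ (-(a * Q - 1))) < 5 * X 1 := by
    have h1 : Tendsto (fun s : ℝ => 16 * (C ^ a * (1 + s) ^ (-(a * Q - 1)))) atTop (𝓝 (16 * 0)) :=
      hYlim.const_mul 16
    have h2 := (h1.eventually (gt_mem_nhds (show (16 * 0 : ℝ) < 5 * X 1 by linarith)))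
    exact eventually_atTop.1 h2
  set S : ℝ := max S0 1 with hS
  have hS1 : 1 ≤ S := le_max_right _ _
  obtain ⟨b, hb, hb1⟩ := hbex S (by linarith)
  obtain ⟨B, hB1⟩ := hBex S (by linarith)
  have hbB : b ≤ B := (hb1 0 le_rfl (by linarith)).trans (hB1 0 le_rfl (by linarith))
  have hB0 : 0 < B := hb.trans_le hbB
  have hSpos : 0 < S := by linarith
  set m : ℝ := b / (b + 32 * B * S) with hm
  have hden : 0 < b + 32 * B * S := by positivity
  have hm0 : 0 < m := div_pos hb hden
  have hm1 : m ≤ 1 := by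
    rw [hm, div_le_one hden]
    have : 0 ≤ 32 * B * S := by positivity
    linarith
  have hmB : 32 * B * S * m < b := by
    rw [hm, mul_div_assoc', div_lt_iff₀ hden]
    nlinarith
  have key : ∀ s, 0 < s → 16 * (s * (-kk a 1 (w s))) * (m * s) < 5 * X s * (1 + m * s) := by
    intro s hs
    have hms : 0 < m * s := mul_pos hm0 hs
    rcases le_total s S with h1 | h1
    · have h2 := hXlow S b hb1 s hs.le h1
      have h3 := hB1 s hs.le h1
      have h4 : 0 < X s := by nlinarith
      have h5 : s * (-kk a 1 (w s)) ≤ s * B := mul_le_mul_of_nonneg_left h3 hs.le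
      have h6 : s * B * (m * s) * 32 < b * s := by
        have : s * B * (m * s) * 32 ≤ (32 * B * S * m) * s := by
          have hBm : 0 ≤ 32 * B * m * s := by positivity
          nlinarith
        nlinarith
      have h7 : 16 * (s * (-kk a 1 (w s))) * (m * s) ≤ 16 * (s * B) * (m * s) := by
        nlinarith
      nlinarith
    · have h2 := hYle s hs.le
      have h3 := hS0 s ((le_max_left _ _).trans h1)
      have h4 := hXmono 1 s zero_le_one (hS1.trans h1)
      have h5 : 16 * (s * (-kk a 1 (w s))) ≤ 5 * X s := by linarith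
      have h6 : 0 < X s := by linarith
      nlinarith
  -- the functions
  have hE : ∀ t : ℝ, HasDerivAt (fun t : ℝ => Real.exp (2 * t)) (2 * Real.exp (2 * t)) t := by
    intro t
    have h1 := ((hasDerivAt_id t).const_mul 2).exp
    exact h1.congr_deriv (by simp only [id]; ring)
  have hchi : ∀ t : ℝ, HasDerivAt (fun t => X (Real.exp (2 * t)))
      (Real.exp (2 * t) * (-kk a 1 (w (Real.exp (2 * t))))) t := by
    intro t
    have h1 := (hX' (Real.exp (2 * t))).comp t (hE t)
    exact h1.congr_deriv (by ring)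
  have hchi1 : ∀ t : ℝ, HasDerivAt
      (fun t => Real.exp (2 * t) * (-kk a 1 (w (Real.exp (2 * t)))))
      (2 * (Real.exp (2 * t) * (-kk a 1 (w (Real.exp (2 * t))))) +
        Real.exp (2 * t) * kd a 1 (w (Real.exp (2 * t))) * X (Real.exp (2 * t))) t := by
    intro t
    have h1 : HasDerivAt (fun t => w (Real.exp (2 * t)))
        (w1 (Real.exp (2 * t)) * (2 * Real.exp (2 * t))) t := (hw' _).comp t (hE t)
    have h2 := (kk_deriv a (w (Real.exp (2 * t)))).comp t h1
    have h3 := (hE t).mul h2.neg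
    refine h3.congr_deriv ?_
    have e1 : (-(kk a 1 ∘ fun t => w (Real.exp (2 * t)))) t = -kk a 1 (w (Real.exp (2 * t))) := rfl
    rw [e1]
    simp only [hX]
    ring
  have hq1 : ∀ t : ℝ, HasDerivAt (fun t : ℝ => Real.exp (-t) + m * Real.exp t)
      (-Real.exp (-t) + m * Real.exp t) t := by
    intro t
    have h1 : HasDerivAt (fun t : ℝ => Real.exp (-t)) (Real.exp (-t) * (-1)) t :=
      (hasDerivAt_id t).neg.exp
    have h2 := h1.add ((Real.hasDerivAt_exp t).const_mul m)
    exact h2.congr_deriv (by ring)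
  have hq2 : ∀ t : ℝ, HasDerivAt (fun t : ℝ => -Real.exp (-t) + m * Real.exp t)
      (Real.exp (-t) + m * Real.exp t) t := by
    intro t
    have h1 : HasDerivAt (fun t : ℝ => Real.exp (-t)) (Real.exp (-t) * (-1)) t :=
      (hasDerivAt_id t).neg.exp
    have h2 := h1.neg.add ((Real.hasDerivAt_exp t).const_mul m)
    exact h2.congr_deriv (by ring)
  refine ⟨fun t => X (Real.exp (2 * t)) * (Real.exp (-t) + m * Real.exp t),
    fun t => Real.exp (2 * t) * (-kk a 1 (w (Real.exp (2 * t)))) *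
        (Real.exp (-t) + m * Real.exp t) +
      X (Real.exp (2 * t)) * (-Real.exp (-t) + m * Real.exp t),
    fun t => ((2 * (Real.exp (2 * t) * (-kk a 1 (w (Real.exp (2 * t))))) +
        Real.exp (2 * t) * kd a 1 (w (Real.exp (2 * t))) * X (Real.exp (2 * t))) *
        (Real.exp (-t) + m * Real.exp t) +
        Real.exp (2 * t) * (-kk a 1 (w (Real.exp (2 * t)))) *
          (-Real.exp (-t) + m * Real.exp t)) +
      (Real.exp (2 * t) * (-kk a 1 (w (Real.exp (2 * t)))) *
          (-Real.exp (-t) + m * Real.exp t) +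
        X (Real.exp (2 * t)) * (Real.exp (-t) + m * Real.exp t)),
    m * (b / 2), by positivity, ?_, ?_, ?_, ?_⟩
  · intro t
    exact (hchi t).mul (hq1 t)
  · intro t
    exact ((hchi1 t).mul (hq1 t)).add ((hchi t).mul (hq2 t))
  · intro t
    have he := Real.exp_pos t
    have hen := Real.exp_pos (-t)
    have hs : 0 < Real.exp (2 * t) := Real.exp_pos _
    have hee : Real.exp (2 * t) * Real.exp (-t) = Real.exp t := by
      rw [← Real.exp_add]; congr 1; ring
    rcases le_total (Real.exp (2 * t)) 1 with h1 | h1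
    · have h2 := hXlow S b hb1 (Real.exp (2 * t)) hs.le (h1.trans hS1)
      have h3 : b / 2 * Real.exp t ≤ X (Real.exp (2 * t)) * Real.exp (-t) := by
        have := mul_le_mul_of_nonneg_right h2 hen.le
        rw [mul_assoc, hee] at this
        exact this
      have h4 : 0 ≤ X (Real.exp (2 * t)) * (m * Real.exp t) := by
        have : 0 ≤ X (Real.exp (2 * t)) := le_trans (by positivity) h2
        positivity
      have h5 : m * (b / 2) * Real.exp t ≤ b / 2 * Real.exp t := by
        have : 0 < b / 2 * Real.exp t := by positivity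
        nlinarith
      show m * (b / 2) * Real.exp t ≤ X (Real.exp (2 * t)) * (Real.exp (-t) + m * Real.exp t)
      rw [mul_add]
      linarith
    · have h2 := hXmono 1 (Real.exp (2 * t)) zero_le_one h1
      have h3 := hXlow S b hb1 1 zero_le_one hS1
      have h4 : 0 ≤ X (Real.exp (2 * t)) * Real.exp (-t) := by
        have : 0 ≤ X (Real.exp (2 * t)) := by linarith
        positivity
      have h5 : m * (b / 2) * Real.exp t ≤ X (Real.exp (2 * t)) * (m * Real.exp t) := by
        have h6 : b / 2 ≤ X (Real.exp (2 * t)) := by linarith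
        have h7 : 0 < m * Real.exp t := by positivity
        nlinarith
      show m * (b / 2) * Real.exp t ≤ X (Real.exp (2 * t)) * (Real.exp (-t) + m * Real.exp t)
      rw [mul_add]
      linarith
  · intro t
    have he := Real.exp_pos t
    have hen := Real.exp_pos (-t)
    have hs : 0 < Real.exp (2 * t) := Real.exp_pos _
    have hee : Real.exp (2 * t) * Real.exp (-t) = Real.exp t := by
      rw [← Real.exp_add]; congr 1; ring
    have hk := key (Real.exp (2 * t)) hs
    have hk2 := mul_lt_mul_of_pos_right hk hen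
    set Y := Real.exp (2 * t) * (-kk a 1 (w (Real.exp (2 * t)))) with hY
    set Z := X (Real.exp (2 * t)) with hZ
    set V := Real.exp (2 * t) * kd a 1 (w (Real.exp (2 * t))) with hV
    have e1 : 16 * Y * (m * Real.exp (2 * t)) * Real.exp (-t) = 16 * Y * (m * Real.exp t) := by
      rw [← hee]; ring
    have e2 : 5 * Z * (1 + m * Real.exp (2 * t)) * Real.exp (-t) =
        5 * Z * (Real.exp (-t) + m * Real.exp t) := by
      rw [← hee]; ring
    rw [e1, e2] at hk2
    show (2 * Y + V * Z) * (Real.exp (-t) + m * Real.exp t) +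
        Y * (-Real.exp (-t) + m * Real.exp t) +
      (Y * (-Real.exp (-t) + m * Real.exp t) + Z * (Real.exp (-t) + m * Real.exp t)) <
      (9 / 4 + V) * (Z * (Real.exp (-t) + m * Real.exp t))
    nlinarith

end Pool.Agent.K3h66.GAH
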